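import Pool.Agent.H43.RO.Def

/-!
# On-line colouring, oblivious adversary: the averaging argument (T5)
-/

set_option autoImplicit false

namespace Pool.Agent.H14.RO

open Finset Pool.Agent.H43.RO

variable {T m L h : ℕ} [NeZero m] {c : Om T m L h → Fin T → X m L → ℕ}

theorem cols_mono (ω : Om T m L h) {s s' : ℕ} (hs : s ≤ s') : cols c ω s ⊆ cols c ω s' := by
  classical
  unfold cols
  intro b hb
  rw [mem_biUnion] at hb ⊢
  obtain ⟨v, hv, hb⟩ := hb
  rw [mem_filter] at hv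
  exact ⟨v, mem_filter.mpr ⟨mem_univ _, by omega⟩, hb⟩

/-- a run with at most `K` colours and no bad event is good at all times -/
theorem good_of {θ M : ℝ} {K : ℕ} {ω : Om T m L h} (hK : (cols c ω T).card ≤ K)
    (h1 : ∀ v : Fin T, ¬ ((cols c ω v).card ≤ K ∧ ¬ E1 θ M c ω v))
    (h2 : ∀ v : Fin T, ¬ ((cols c ω v).card ≤ K ∧ ¬ E2 θ c ω v)) (v : Fin T) : Good θ M K c ω v := by
  have hc : ∀ s : ℕ, s ≤ T → (cols c ω s).card ≤ K := fun s hs => (card_le_card (cols_mono ω hs)).trans hK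
  refine ⟨fun w _ => ⟨?_, ?_⟩, hc _ v.isLt⟩
  · by_contra h
    exact h1 w ⟨hc _ w.isLt.le, h⟩
  · by_contra h
    exact h2 w ⟨hc _ w.isLt.le, h⟩

theorem core_aux {θ : ℝ} (hθ : 2 ≤ θ) (hm : 16 * T ≤ m) (K : ℕ)
    (hU : UpperStmt θ (8 * θ ^ 2) K c) (hL : LowerStmt θ (8 * θ ^ 2) K c)
    (hB1 : B1Stmt θ (8 * θ ^ 2) K c) (hB2 : B2Stmt θ K c)
    (h1 : T * (K * (Fintype.card (X m L) + 1) * Real.exp (-θ)) ≤ 1 / 8)
    (h2 : 72 * K * θ ^ 2 < T) (A : Finset (Om T m L h))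
    (hA : ∀ ω ∈ A, (cols c ω T).card ≤ K) :
    2 * A.card ≤ Fintype.card (Om T m L h) := by
  classical
  by_contra hcon
  push Not at hcon
  set N : ℝ := (Fintype.card (Om T m L h) : ℝ) with hN
  have hcon' : N < 2 * (A.card : ℝ) := by
    rw [hN]
    exact_mod_cast hcon
  have hN0 : 0 ≤ N := by rw [hN]; positivity
  have hAN : (A.card : ℝ) ≤ N := by
    rw [hN]
    exact_mod_cast Finset.card_le_univ A
  have hNpos : 0 < N := by linarith
  set E : ℝ := Real.exp (-θ) with hE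
  let B1 : Fin T → Finset (Om T m L h) := fun v =>
    univ.filter fun ω => (cols c ω v).card ≤ K ∧ ¬ E1 θ (8 * θ ^ 2) c ω v
  let B2 : Fin T → Finset (Om T m L h) := fun v =>
    univ.filter fun ω => (cols c ω v).card ≤ K ∧ ¬ E2 θ c ω v
  have hb1 : ∀ v, ((B1 v).card : ℝ) ≤ K * E * N := fun v => by
    have := hB1 v
    convert this using 3
  have hb2 : ∀ v, ((B2 v).card : ℝ) ≤ K * Fintype.card (X m L) * E * N := fun v => by
    have := hB2 v
    convert this using 3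
  set B : Finset (Om T m L h) := univ.biUnion fun v => B1 v ∪ B2 v with hBdef
  have hBc : (B.card : ℝ) ≤ N / 8 := by
    have e1 : (B.card : ℝ) ≤ ∑ v : Fin T, (((B1 v ∪ B2 v).card : ℕ) : ℝ) := by
      exact_mod_cast card_biUnion_le
    have e2 : ∑ v : Fin T, (((B1 v ∪ B2 v).card : ℕ) : ℝ) ≤
        ∑ _v : Fin T, (K * (Fintype.card (X m L) + 1) * E * N) := by
      refine sum_le_sum fun v _ => ?_
      have e3 : (((B1 v ∪ B2 v).card : ℕ) : ℝ) ≤ (B1 v).card + (B2 v).card := by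
        exact_mod_cast card_union_le _ _
      have e4 := hb1 v
      have e5 := hb2 v
      have e6 : (K : ℝ) * (Fintype.card (X m L) + 1) * E * N =
          K * E * N + K * Fintype.card (X m L) * E * N := by ring
      linarith
    rw [sum_const, card_univ, Fintype.card_fin, nsmul_eq_mul] at e2
    have e7 : (T : ℝ) * (K * (Fintype.card (X m L) + 1) * E * N) =
        (T * (K * (Fintype.card (X m L) + 1) * E)) * N := by ring
    have e8 := mul_le_mul_of_nonneg_right h1 hN0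
    linarith
  have hgood : ∀ v, A \ B ⊆ univ.filter fun ω => Good θ (8 * θ ^ 2) K c ω v := by
    intro v ω hω
    rw [mem_sdiff, hBdef, mem_biUnion] at hω
    obtain ⟨hωA, hωB⟩ := hω
    push Not at hωB
    have h3 : ∀ v, ω ∉ B1 v ∧ ω ∉ B2 v := by
      intro v
      have := hωB v (mem_univ v)
      rw [mem_union] at this
      exact not_or.mp this
    refine mem_filter.mpr ⟨mem_univ _, good_of (hA ω hωA) (fun w hw => ?_) (fun w hw => ?_) v⟩
    · exact (h3 w).1 (mem_filter.mpr ⟨mem_univ _, hw⟩)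
    · exact (h3 w).2 (mem_filter.mpr ⟨mem_univ _, hw⟩)
  have hcard : (3 / 8 : ℝ) * N ≤ ((A \ B).card : ℝ) := by
    have e1 : (A.card : ℝ) ≤ (A \ B).card + B.card := by
      have : A.card ≤ (A \ B).card + B.card := by
        have := card_le_card_sdiff_add_card (s := A) (t := B)
        exact this
      exact_mod_cast this
    linarith
  have hlow : ∀ v : Fin T, (3 / 16 : ℝ) * N ≤ ∑ ω, gainG θ (8 * θ ^ 2) K c ω v := by
    intro v
    have e1 := hL v
    have e2 : ((A \ B).card : ℝ) ≤ ((univ.filter fun ω => Good θ (8 * θ ^ 2) K c ω v).card : ℝ) := by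
      exact_mod_cast card_le_card (hgood v)
    have e3 : (1 / 2 : ℝ) * ((univ.filter fun ω => Good θ (8 * θ ^ 2) K c ω v).card : ℝ) ≤
        ∑ ω, gainG θ (8 * θ ^ 2) K c ω v := by
      convert e1 using 3
    linarith
  have hsum1 : (T : ℝ) * ((3 / 16 : ℝ) * N) ≤ ∑ v : Fin T, ∑ ω, gainG θ (8 * θ ^ 2) K c ω v := by
    have := Finset.sum_le_sum (s := (univ : Finset (Fin T))) fun v _ => hlow v
    rwa [sum_const, card_univ, Fintype.card_fin, nsmul_eq_mul] at this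
  have hsum2 : ∑ v : Fin T, ∑ ω, gainG θ (8 * θ ^ 2) K c ω v ≤
      N * (K * (8 * θ ^ 2 + 1) + (T : ℝ) ^ 2 / m) := by
    rw [sum_comm]
    have := Finset.sum_le_sum (s := (univ : Finset (Om T m L h))) fun ω _ => hU ω
    rwa [sum_const, card_univ, nsmul_eq_mul] at this
  have hmpos : (0 : ℝ) < m := by exact_mod_cast Nat.pos_of_ne_zero (NeZero.ne m)
  have hTm : (T : ℝ) ^ 2 / m ≤ T / 16 := by
    rw [div_le_iff₀ hmpos]
    have e1 : (16 : ℝ) * T ≤ m := by exact_mod_cast hm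
    have e2 : (0 : ℝ) ≤ T := by positivity
    nlinarith
  have h3 : N * ((T : ℝ) * (3 / 16)) ≤ N * (K * (8 * θ ^ 2 + 1) + (T : ℝ) ^ 2 / m) := by
    linarith
  have h4 := le_of_mul_le_mul_left h3 hNpos
  have hK : (0 : ℝ) ≤ K := by positivity
  have h5 : (1 : ℝ) ≤ θ ^ 2 := by nlinarith
  have h6 : (K : ℝ) * 1 ≤ K * θ ^ 2 := mul_le_mul_of_nonneg_left h5 hK
  have h7 : (K : ℝ) * (8 * θ ^ 2 + 1) = 8 * (K * θ ^ 2) + K * 1 := by ring
  have h8 : 72 * (K : ℝ) * θ ^ 2 = 72 * (K * θ ^ 2) := by ring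
  linarith

open Classical in
/-- (T5) -/
theorem core {θ : ℝ} (hθ : 2 ≤ θ) (hm : 16 * T ≤ m) (K : ℕ)
    (hU : UpperStmt θ (8 * θ ^ 2) K c) (hL : LowerStmt θ (8 * θ ^ 2) K c)
    (hB1 : B1Stmt θ (8 * θ ^ 2) K c) (hB2 : B2Stmt θ K c)
    (h1 : T * (K * (Fintype.card (X m L) + 1) * Real.exp (-θ)) ≤ 1 / 8)
    (h2 : 72 * K * θ ^ 2 < T) :
    2 * (Fintype.card {ω : Om T m L h // (cols c ω T).card ≤ K}) ≤ Fintype.card (Om T m L h) := by
  rw [Fintype.card_subtype]
  exact core_aux hθ hm K hU hL hB1 hB2 h1 h2 _ fun ω hω => (mem_filter.mp hω).2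

end Pool.Agent.H14.RO
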