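import Pool.Agent.H14.RO.Core

/-!
# On-line colouring, oblivious adversary: runs with few colours are exponentially rare (P2)
-/

set_option autoImplicit false

namespace Pool.Agent.H14.RO

open Finset Pool.Agent.H43.RO

variable {T m L h : ℕ} [NeZero m] {c : Om T m L h → Fin T → X m L → ℕ}

open Classical in
theorem core2_aux {θ : ℝ} (hθ : 2 ≤ θ) (hm : 16 * T ≤ m) (K : ℕ)
    (hG : ((univ.filter fun ω => ∀ v, Good θ (8 * θ ^ 2) K c ω v).card : ℝ) ≤
      Real.exp (K * (8 * θ ^ 2 + 1) + (T : ℝ) ^ 2 / m - 5 * T / 16) * Fintype.card (Om T m L h))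
    (hB1 : B1Stmt θ (8 * θ ^ 2) K c) (hB2 : B2Stmt θ K c)
    (h2 : 72 * K * θ ^ 2 < T) (A : Finset (Om T m L h))
    (hA : ∀ ω ∈ A, (cols c ω T).card ≤ K) :
    (A.card : ℝ) ≤ (Real.exp (-((T : ℝ) / 8)) + T * (K * (Fintype.card (X m L) + 1) * Real.exp (-θ))) *
      Fintype.card (Om T m L h) := by
  set N : ℝ := (Fintype.card (Om T m L h) : ℝ) with hN
  have hN0 : 0 ≤ N := by rw [hN]; positivity
  set E : ℝ := Real.exp (-θ) with hE
  let B1 : Fin T → Finset (Om T m L h) := fun v =>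
    univ.filter fun ω => (cols c ω v).card ≤ K ∧ ¬ E1 θ (8 * θ ^ 2) c ω v
  let B2 : Fin T → Finset (Om T m L h) := fun v =>
    univ.filter fun ω => (cols c ω v).card ≤ K ∧ ¬ E2 θ c ω v
  have hb1 : ∀ v, ((B1 v).card : ℝ) ≤ K * E * N := fun v => by
    have := hB1 v
    convert this using 3
  have hb2 : ∀ v, ((B2 v).card : ℝ) ≤ K * Fintype.card (X m L) * E * N := fun v => by
    have := hB2 v
    convert this using 3
  set B : Finset (Om T m L h) := univ.biUnion fun v => B1 v ∪ B2 v with hBdef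
  have hBc : (B.card : ℝ) ≤ (T * (K * (Fintype.card (X m L) + 1) * E)) * N := by
    have e1 : (B.card : ℝ) ≤ ∑ v : Fin T, (((B1 v ∪ B2 v).card : ℕ) : ℝ) := by
      exact_mod_cast card_biUnion_le
    have e2 : ∑ v : Fin T, (((B1 v ∪ B2 v).card : ℕ) : ℝ) ≤
        ∑ _v : Fin T, (K * (Fintype.card (X m L) + 1) * E * N) := by
      refine sum_le_sum fun v _ => ?_
      have e3 : (((B1 v ∪ B2 v).card : ℕ) : ℝ) ≤ (B1 v).card + (B2 v).card := by
        exact_mod_cast card_union_le _ _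
      have e4 := hb1 v
      have e5 := hb2 v
      have e6 : (K : ℝ) * (Fintype.card (X m L) + 1) * E * N =
          K * E * N + K * Fintype.card (X m L) * E * N := by ring
      linarith
    rw [sum_const, card_univ, Fintype.card_fin, nsmul_eq_mul] at e2
    have e7 : (T : ℝ) * (K * (Fintype.card (X m L) + 1) * E * N) =
        (T * (K * (Fintype.card (X m L) + 1) * E)) * N := by ring
    linarith
  have hgood : A \ B ⊆ univ.filter fun ω => ∀ v, Good θ (8 * θ ^ 2) K c ω v := by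
    intro ω hω
    rw [mem_sdiff, hBdef, mem_biUnion] at hω
    obtain ⟨hωA, hωB⟩ := hω
    push Not at hωB
    have h3 : ∀ v, ω ∉ B1 v ∧ ω ∉ B2 v := by
      intro v
      have := hωB v (mem_univ v)
      rw [mem_union] at this
      exact not_or.mp this
    refine mem_filter.mpr ⟨mem_univ _, fun v => good_of (hA ω hωA) (fun w hw => ?_) (fun w hw => ?_) v⟩
    · exact (h3 w).1 (mem_filter.mpr ⟨mem_univ _, hw⟩)
    · exact (h3 w).2 (mem_filter.mpr ⟨mem_univ _, hw⟩)
  have hcard : (A.card : ℝ) ≤ (A \ B).card + B.card := by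
    have : A.card ≤ (A \ B).card + B.card := card_le_card_sdiff_add_card (s := A) (t := B)
    exact_mod_cast this
  have hG2 : ((A \ B).card : ℝ) ≤
      ((univ.filter fun ω => ∀ v, Good θ (8 * θ ^ 2) K c ω v).card : ℝ) := by
    exact_mod_cast card_le_card hgood
  have hmpos : (0 : ℝ) < m := by exact_mod_cast Nat.pos_of_ne_zero (NeZero.ne m)
  have hTm : (T : ℝ) ^ 2 / m ≤ T / 16 := by
    rw [div_le_iff₀ hmpos]
    have e1 : (16 : ℝ) * T ≤ m := by exact_mod_cast hm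
    have e2 : (0 : ℝ) ≤ T := by positivity
    nlinarith
  have hK : (0 : ℝ) ≤ K := by positivity
  have h5 : (1 : ℝ) ≤ θ ^ 2 := by nlinarith
  have h6 : (K : ℝ) * 1 ≤ K * θ ^ 2 := mul_le_mul_of_nonneg_left h5 hK
  have h7 : (K : ℝ) * (8 * θ ^ 2 + 1) = 8 * (K * θ ^ 2) + K * 1 := by ring
  have h8 : 72 * (K : ℝ) * θ ^ 2 = 72 * (K * θ ^ 2) := by ring
  have hexp : Real.exp (K * (8 * θ ^ 2 + 1) + (T : ℝ) ^ 2 / m - 5 * T / 16) ≤ Real.exp (-((T : ℝ) / 8)) := by
    apply Real.exp_le_exp.mpr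
    linarith
  have h9 := mul_le_mul_of_nonneg_right hexp hN0
  have h10 : (Real.exp (-((T : ℝ) / 8)) + T * (K * (Fintype.card (X m L) + 1) * E)) * N =
      Real.exp (-((T : ℝ) / 8)) * N + (T * (K * (Fintype.card (X m L) + 1) * E)) * N := by ring
  linarith

open Classical in
/-- (P2) -/
theorem core2 {θ : ℝ} (hθ : 2 ≤ θ) (hm : 16 * T ≤ m) (K : ℕ)
    (hG : ((univ.filter fun ω => ∀ v, Good θ (8 * θ ^ 2) K c ω v).card : ℝ) ≤
      Real.exp (K * (8 * θ ^ 2 + 1) + (T : ℝ) ^ 2 / m - 5 * T / 16) * Fintype.card (Om T m L h))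
    (hB1 : B1Stmt θ (8 * θ ^ 2) K c) (hB2 : B2Stmt θ K c)
    (h2 : 72 * K * θ ^ 2 < T) :
    (Fintype.card {ω : Om T m L h // (cols c ω T).card ≤ K} : ℝ) ≤
      (Real.exp (-((T : ℝ) / 8)) + T * (K * (Fintype.card (X m L) + 1) * Real.exp (-θ))) *
        Fintype.card (Om T m L h) := by
  rw [Fintype.card_subtype]
  exact core2_aux hθ hm K hG hB1 hB2 h2 _ fun ω hω => (mem_filter.mp hω).2

end Pool.Agent.H14.RO
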